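import Pool.Agent.H.MP_02294b_ag.Cov.Space

/-!
# MP_02294b : configurations with a cut

If a configuration of lines has a cut, then its Hirzebruch-Kummer covering contains an essential
two-sphere and is not a `K(π, 1)`, for every `n ≥ 2`.
-/

open Pool.Agent.H.MP_02294b_ag.Cov

namespace Pool.Agent.Results.MP_02294b_ag.CutSphere

/-- Let `L` be a configuration of lines in the complex projective plane with a cut, that is, a
triangle with two sides on lines of `L` through the vertex `P 0`, such that every line of `L`
either passes through `P 0` (and all these lines but at most one meet the opposite side), or crosses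
the triangle from the side `P 0 P 1` to the side `P 0 P 2`, or avoids the triangle, and such that
there are lines of the last two kinds. Then, for every `n ≥ 2`, there is a map of the two-sphere to
the Hirzebruch-Kummer covering which is not null-homotopic, and the covering is not a `K(π, 1)`. -/
theorem result {ι : Type} [Fintype ι] (L : ι → Fin 3 → ℂ) (hL : IsConfig L) (hC : HasCut L)
    (n : ℕ) (hn : 2 ≤ n) :
    HasEssentialSphere (HKSpace L n) ∧ ¬ IsKPiOne (HKSpace L n) :=
  cut_space L n hn hL hC

end Pool.Agent.Results.MP_02294b_ag.CutSphere
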