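import Pool.Agent.H.MP_02294b_ag.Cov.Few

/-!
# MP_02294b : real configurations with at most one point on more than three lines

The Hirzebruch-Kummer coverings of a real configuration with at most one point on more than three
lines are not `K(π, 1)`, for all `n ≥ 2`, unless the configuration consists of the sides and the
axes of symmetry of a regular polygon or of the complete quadrangle and one more line.
-/

open Pool.Agent.H.MP_02294b_ag.Cov

namespace Pool.Agent.Results.MP_02294b_ag.RealOne

/-- Let `A` be the family of linear forms of a configuration of real lines with at most one point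
on more than three of the lines. Then, up to a real projective transformation, `A` is the complete
quadrangle with the line through two of its double points, or `A` consists of the sides and the
axes of symmetry of a regular `r`-gon for some `r ≥ 3`, or the Hirzebruch-Kummer coverings of `A`
contain an essential two-sphere and are not `K(π, 1)` for all `n ≥ 2`. -/
theorem result {ι : Type} [Fintype ι] (A : ι → Fin 3 → ℝ) (hA : IsConfig (cx A))
    (h4 : ∀ p q : Fin 3 → ℝ, p ≠ 0 → q ≠ 0 → 4 ≤ {i | rlin A i p = 0}.ncard →
      4 ≤ {i | rlin A i q = 0}.ncard → ∃ c : ℝ, q = c • p) :
    RealEquiv A quad7 ∨ (∃ r, 3 ≤ r ∧ RealEquiv A (polygon r)) ∨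
      ∀ n, 2 ≤ n → HasEssentialSphere (HKSpace (cx A) n) ∧ ¬ IsKPiOne (HKSpace (cx A) n) :=
  real_one_final A hA h4

end Pool.Agent.Results.MP_02294b_ag.RealOne
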