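import Pool.Agent.H.MP_02294b_ag.Cov.Space
import Pool.Agent.H.MP_02294b_ag.Cov.Real2

/-!
# MP_02294b : real configurations, non-adjacent walls

If the Hirzebruch-Kummer covering of a real configuration is a `K(π, 1)` for some `n ≥ 2`,
then two non-adjacent walls of a chamber meet in a point on at least four lines.
-/

open Pool.Agent.H.MP_02294b_ag.Cov

namespace Pool.Agent.Results.MP_02294b_ag.RealWalls

/-- Let `A` be the family of linear forms of a configuration of real lines, and suppose that for some
`n ≥ 2` its Hirzebruch-Kummer covering is a `K(π, 1)`. Let `x` be a point on no line. If two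
different walls `f`, `g` of the chamber of `x` meet in the point `p`, then `p` lies on at least
four of the lines or one of the vectors `p`, `-p` lies in the closure of the chamber. -/
theorem result {ι : Type} [Fintype ι] (A : ι → Fin 3 → ℝ) (hA : IsConfig (cx A)) (n : ℕ)
    (hn : 2 ≤ n) (hK : IsKPiOne (HKSpace (cx A) n)) (x : Fin 3 → ℝ)
    (f g : ι) (hfg : f ≠ g) (hf : IsWall A x f) (hg : IsWall A x g) (p : Fin 3 → ℝ)
    (hpf : rlin A f p = 0) (hpg : rlin A g p = 0) :
    4 ≤ {i | rlin A i p = 0}.ncard ∨
      (∀ i, 0 ≤ rlin A i x * rlin A i p) ∨ ∀ i, rlin A i x * rlin A i p ≤ 0 := by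
  have hcut : ¬ HasCut (cx A) := fun h => (cut_space (cx A) n hn hA h).2 hK
  by_contra hcon
  push Not at hcon
  obtain ⟨h3, ⟨h, hh⟩, ⟨j, hj⟩⟩ := hcon
  exact hcut (hasCut_of_walls A hfg hf hg hpf hpg (by omega) hh hj)

end Pool.Agent.Results.MP_02294b_ag.RealWalls
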