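import Pool.Agent.H.MP_02294b_ag.Cov.Space
import Pool.Agent.H.MP_02294b_ag.Cov.Ext3

/-!
# MP_02294b : enlarging rigid configurations

Every rigid configuration with four lines in general position is contained in a strictly larger
rigid configuration whose Hirzebruch-Kummer coverings are not `K(π, 1)`.
-/

open Pool.Agent.H.MP_02294b_ag.Cov

namespace Pool.Agent.Results.MP_02294b_ag.RigidExtension

/-- Every rigid configuration `L` with four lines in general position is contained in a strictly
larger rigid configuration `M` such that for all `n ≥ 2` the covering `HKSpace M n` is not a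
`K(π, 1)`. -/
theorem result {ι : Type} [Fintype ι] (L : ι → Fin 3 → ℂ) (hL : IsConfig L) (hR : IsRigid L)
    (hG : FourGeneral L) :
    ∃ (κ : Type) (_ : Fintype κ) (M : ι ⊕ κ → Fin 3 → ℂ), Nonempty κ ∧
      (∀ i, M (Sum.inl i) = L i) ∧ IsConfig M ∧ IsRigid M ∧
      ∀ n : ℕ, 2 ≤ n → ¬ IsKPiOne (HKSpace M n) := by
  obtain ⟨κ, hκ, M, h1, h2, h3, h4, h5⟩ := exists_rigid_cut hL hR hG
  exact ⟨κ, hκ, M, h1, h2, h3, h4, fun n hn => (cut_space M n hn h3 h5).2⟩

end Pool.Agent.Results.MP_02294b_ag.RigidExtension
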